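import Pool.Agent.H42.GN.MomA

/-!
# Kernels of matrices with polynomial entries, by maximal minors

`S r i` is a matrix of polynomials in one variable `t` (rows `r`, columns `i : Fin N`).  We choose
the `N` rows whose minor is the largest on `[0, 1]`.  The cofactors of one of these rows are a
vector `q` of polynomials with `|S r q| ≤ M` for all rows and `S (f a) q = Δ`.
-/

set_option autoImplicit false

namespace Pool.M3F

open Finset Polynomial

section

variable {N : ℕ} {R : Type} (S : R → Fin N → ℝ[X])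

/-- The minor of the rows `f`. -/
noncomputable def mnr (f : Fin N → R) : ℝ[X] := (Matrix.of fun a i => S (f a) i).det

/-- The minor of the rows `f`, evaluated. -/
theorem eval_mnr (f : Fin N → R) (t : ℝ) :
    (mnr S f).eval t = (Matrix.of fun a i => (S (f a) i).eval t).det := by
  unfold mnr
  rw [← coe_evalRingHom, RingHom.map_det]
  rfl

theorem natDegree_det_le {M : Matrix (Fin N) (Fin N) ℝ[X]} {d : ℕ}
    (h : ∀ a i, (M a i).natDegree ≤ d) : M.det.natDegree ≤ N * d := by
  rw [Matrix.det_apply]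
  refine natDegree_sum_le_of_forall_le _ _ fun σ _ => ?_
  refine (natDegree_smul_le _ _).trans ?_
  refine (natDegree_prod_le _ _).trans ?_
  refine (Finset.sum_le_sum (g := fun _ => d) fun a _ => h _ _).trans ?_
  rw [Finset.sum_const, Finset.card_univ, Fintype.card_fin, smul_eq_mul]

theorem natDegree_mnr {d : ℕ} (h : ∀ r i, (S r i).natDegree ≤ d) (f : Fin N → R) :
    (mnr S f).natDegree ≤ N * d :=
  natDegree_det_le fun a i => h (f a) i

/-- The cofactors of the row `a` of the minor `f`. -/
noncomputable def cof (f : Fin N → R) (a i : Fin N) : ℝ[X] :=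
  ((Matrix.of fun a i => S (f a) i).updateRow a (Pi.single i 1)).det

theorem natDegree_cof {d : ℕ} (h : ∀ r i, (S r i).natDegree ≤ d) (f : Fin N → R) (a i : Fin N) :
    (cof S f a i).natDegree ≤ N * d := by
  refine natDegree_det_le fun b j => ?_
  by_cases hb : b = a
  · rw [hb, Matrix.updateRow_self]
    by_cases hj : j = i
    · rw [hj, Pi.single_eq_same, natDegree_one]
      exact Nat.zero_le _
    · rw [Pi.single_eq_of_ne hj, natDegree_zero]
      exact Nat.zero_le _
  · rw [Matrix.updateRow_ne hb]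
    exact h _ _

/-- A row times the cofactors is the minor with the row put in the place of the row `a`. -/
theorem sum_cof (f : Fin N → R) (a : Fin N) (r : R) :
    ∑ i, S r i * cof S f a i = mnr S (Function.update f a r) := by
  have h1 : (Matrix.of fun b i => S (Function.update f a r b) i) =
      (Matrix.of fun b i => S (f b) i).updateRow a (fun i => S r i) := by
    ext b i
    by_cases hb : b = a
    · rw [hb, Matrix.updateRow_self, Matrix.of_apply, Function.update_self]
    · rw [Matrix.updateRow_ne hb, Matrix.of_apply, Matrix.of_apply, Function.update_of_ne hb]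
  unfold mnr
  rw [h1]
  have h2 := Matrix.adjugate_apply (Matrix.of fun b i => S (f b) i)
  have h3 : ((Matrix.of fun b i => S (f b) i).updateRow a (fun i => S r i)).det =
      ∑ i, S r i * (Matrix.of fun b i => S (f b) i).adjugate i a := by
    rw [← Matrix.cramer_transpose_apply, Matrix.cramer_eq_adjugate_mulVec,
      ← Matrix.adjugate_transpose]
    unfold Matrix.mulVec dotProduct
    refine Finset.sum_congr rfl fun i _ => ?_
    exact mul_comm _ _
  rw [h3]
  refine Finset.sum_congr rfl fun i _ => ?_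
  rw [h2]
  rfl

theorem eval_sum_cof (f : Fin N → R) (a : Fin N) (r : R) (t : ℝ) :
    ∑ i, (S r i).eval t * (cof S f a i).eval t = (mnr S (Function.update f a r)).eval t := by
  rw [← sum_cof, eval_finsetSum]
  exact Finset.sum_congr rfl fun i _ => by rw [eval_mul]

/-- Cramer's rule: all the rows are controlled by the rows of the minor. -/
theorem cramer_rows (f : Fin N → R) (r : R) (t : ℝ) (q : Fin N → ℝ) :
    (mnr S f).eval t * ∑ i, (S r i).eval t * q i =
      ∑ a, (mnr S (Function.update f a r)).eval t * ∑ i, (S (f a) i).eval t * q i := by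
  classical
  set A : Matrix (Fin N) (Fin N) ℝ := Matrix.of fun a i => (S (f a) i).eval t with hA
  have h1 : A.det • (fun i => q i) = A.adjugate.mulVec (A.mulVec q) := by
    rw [Matrix.mulVec_mulVec, Matrix.adjugate_mul, Matrix.smul_mulVec, Matrix.one_mulVec]
  have h2 : ∀ i, A.det * q i = ∑ a, A.adjugate i a * ∑ j, (S (f a) j).eval t * q j := by
    intro i
    have := congrFun h1 i
    rw [Pi.smul_apply, smul_eq_mul] at this
    rw [this]
    rfl
  have h3 : ∀ a, (mnr S (Function.update f a r)).eval t =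
      ∑ i, (S r i).eval t * A.adjugate i a := by
    intro a
    rw [← eval_sum_cof]
    refine Finset.sum_congr rfl fun i _ => ?_
    rw [Matrix.adjugate_apply]
    unfold cof
    rw [← coe_evalRingHom, RingHom.map_det]
    congr 2
    ext b j
    rw [RingHom.mapMatrix_apply, Matrix.map_apply]
    by_cases hb : b = a
    · rw [hb, Matrix.updateRow_self, Matrix.updateRow_self]
      by_cases hj : j = i
      · rw [hj, Pi.single_eq_same, Pi.single_eq_same, map_one]
      · rw [Pi.single_eq_of_ne hj, Pi.single_eq_of_ne hj, map_zero]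
    · rw [Matrix.updateRow_ne hb, Matrix.updateRow_ne hb]
      rfl
  rw [eval_mnr, Finset.mul_sum]
  have h4 : ∀ i, (Matrix.of fun a i => (S (f a) i).eval t).det * ((S r i).eval t * q i) =
      ∑ a, (S r i).eval t * A.adjugate i a * ∑ j, (S (f a) j).eval t * q j := by
    intro i
    calc A.det * ((S r i).eval t * q i) = (S r i).eval t * (A.det * q i) := by ring
      _ = _ := by
        rw [h2, Finset.mul_sum]
        exact Finset.sum_congr rfl fun a _ => by ring
  rw [Finset.sum_congr rfl fun i _ => h4 i, Finset.sum_comm]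
  refine Finset.sum_congr rfl fun a _ => ?_
  rw [h3, Finset.sum_mul]

/-- The largest minor on `[0, 1]`. -/
theorem exists_max_mnr [Finite R] [Nonempty R] : ∃ (f : Fin N → R) (t₁ : ℝ), t₁ ∈ Set.Icc (0 : ℝ) 1 ∧
    ∀ (f' : Fin N → R) (t : ℝ), t ∈ Set.Icc (0 : ℝ) 1 →
      |(mnr S f').eval t| ≤ |(mnr S f).eval t₁| := by
  have h1 : ∀ f' : Fin N → R, ∃ t₁ ∈ Set.Icc (0 : ℝ) 1, ∀ t ∈ Set.Icc (0 : ℝ) 1,
      |(mnr S f').eval t| ≤ |(mnr S f').eval t₁| := by
    intro f'
    obtain ⟨t₁, h2, h3⟩ := isCompact_Icc.exists_isMaxOn (s := Set.Icc (0 : ℝ) 1)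
      ⟨0, by norm_num, by norm_num⟩ ((mnr S f').continuous.abs.continuousOn)
    exact ⟨t₁, h2, fun t ht => h3 ht⟩
  choose g hg hg' using h1
  obtain ⟨f, hf⟩ := Finite.exists_max fun f' : Fin N → R => |(mnr S f').eval (g f')|
  exact ⟨f, g f, hg f, fun f' t ht => (hg' f' t ht).trans (hf f')⟩

/-- **The kernel by the largest minor.**  If at some time `t` at which the minor `f` is at least
`η` times its maximum the rows outside `B` control nothing (there is a vector whose rows outside
`B` are at most `σ` and some row is at least `1`, `N σ < η`), then some row `f a` of the largest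
minor is in `B`; its cofactors `q` satisfy `|S r q| ≤ M` for all rows and all times in `[0, 1]`,
and `S (f a) q` is the minor. -/
theorem kernel_minor [Finite R] [Nonempty R] (B : R → Prop) {d : ℕ}
    (hd : ∀ r i, (S r i).natDegree ≤ d) :
    ∃ (f : Fin N → R) (M : ℝ), 0 ≤ M ∧ (∃ t ∈ Set.Icc (0 : ℝ) 1, |(mnr S f).eval t| = M) ∧
      (∀ f' : Fin N → R, ∀ t ∈ Set.Icc (0 : ℝ) 1, |(mnr S f').eval t| ≤ M) ∧
      (∀ a i, (cof S f a i).natDegree ≤ N * d) ∧
      (∀ a r, ∀ t ∈ Set.Icc (0 : ℝ) 1, |∑ i, (S r i).eval t * (cof S f a i).eval t| ≤ M) ∧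
      (∀ a t, ∑ i, (S (f a) i).eval t * (cof S f a i).eval t = (mnr S f).eval t) ∧
      ∀ (η σ : ℝ) (t : ℝ) (q : Fin N → ℝ), t ∈ Set.Icc (0 : ℝ) 1 → 0 < M →
        η * M ≤ |(mnr S f).eval t| → (∀ r, ¬ B r → |∑ i, (S r i).eval t * q i| ≤ σ) →
        (∃ r, 1 ≤ |∑ i, (S r i).eval t * q i|) → N * σ < η → ∃ a, B (f a) := by
  classical
  obtain ⟨f, t₁, ht₁, hmax⟩ := exists_max_mnr S
  refine ⟨f, |(mnr S f).eval t₁|, abs_nonneg _, ⟨t₁, ht₁, rfl⟩, hmax, natDegree_cof S hd f, ?_, ?_,
    ?_⟩
  · intro a r t ht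
    rw [eval_sum_cof]
    exact hmax _ t ht
  · intro a t
    rw [eval_sum_cof, Function.update_eq_self]
  · intro η σ t q ht hM hη hσ ⟨r, hr⟩ hN
    by_contra hcon
    push Not at hcon
    have h1 := cramer_rows S f r t q
    have h2 : |(mnr S f).eval t * ∑ i, (S r i).eval t * q i| ≤
        N * (|(mnr S f).eval t₁| * σ) := by
      rw [h1]
      refine (Finset.abs_sum_le_sum_abs _ _).trans ?_
      refine (Finset.sum_le_sum (g := fun _ => |(mnr S f).eval t₁| * σ) fun a _ => ?_).trans ?_
      · rw [abs_mul]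
        exact mul_le_mul (hmax _ t ht) (hσ _ (hcon a)) (abs_nonneg _) (abs_nonneg _)
      · rw [Finset.sum_const, Finset.card_univ, Fintype.card_fin, nsmul_eq_mul]
    rw [abs_mul] at h2
    have h3 : η * |(mnr S f).eval t₁| ≤ |(mnr S f).eval t| * |∑ i, (S r i).eval t * q i| :=
      hη.trans (le_mul_of_one_le_right (abs_nonneg _) hr)
    have h4 : η * |(mnr S f).eval t₁| ≤ (N * σ) * |(mnr S f).eval t₁| := by
      calc _ ≤ _ := h3.trans h2
        _ = _ := by ring
    have h5 := le_of_mul_le_mul_right h4 hM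
    linarith

/-- The maximum of the minors is positive if the matrix is injective at some time. -/
theorem max_pos [Finite R] [Nonempty R] {f : Fin N → R} {M : ℝ}
    (hmax : ∀ f' : Fin N → R, ∀ t ∈ Set.Icc (0 : ℝ) 1, |(mnr S f').eval t| ≤ M)
    {t : ℝ} (ht : t ∈ Set.Icc (0 : ℝ) 1)
    (hinj : ∀ q : Fin N → ℝ, (∀ r, ∑ i, (S r i).eval t * q i = 0) → q = 0) : 0 < M := by
  classical
  obtain ⟨g, hg⟩ := Pool.GNZ.exists_minor (ρ := Fin N) (τ := R) (fun i r => (S r i).eval t)
    (fun c hc => hinj c fun r => by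
      rw [← hc r]
      exact Finset.sum_congr rfl fun i _ => mul_comm _ _)
  refine lt_of_lt_of_le ?_ (hmax g t ht)
  rw [abs_pos, eval_mnr]
  intro h0
  apply hg
  rw [← h0, ← Matrix.det_transpose]
  rfl

end

end Pool.M3F
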